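import Pool.Agent.H70.RW.T
import Pool.Agent.H47.RK.GTE
import Pool.Agent.H66.RK.GTL
import Pool.Agent.H46.RK.ANL

/-!
# GTE: gates for the answers of the instances (MP_0f8dca_lc, board nbw_modules)
-/

set_option autoImplicit false

namespace Pool.Agent.H25.RW

open Pool.Agent.H6.NB Pool.Agent.H70.OQ Pool.Agent.H70.RW
open Pool.Agent.H70.RK (Gt gmap gval gbs gsz)
open Pool.Agent.H32.RC (wl mem_wl wl_len eval_short)
open Pool.Agent.H47.RK (gcons gval_gcons mem_gbs_gcons gsz_gcons dneg dneg_eval dneg_depth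
  dneg_short mk mk_val mk_gsz mk_gbs)
open Pool.Agent.H66.RK (gbs_gmap gsz_gmap gval_gmap)

/-- The instance strings determine the machine and the input. -/
theorem inw_inj (hCOD : Pool.Agent.H6.NB.T_COD) {c c' i j : ℕ} {x y : List Bool}
    (h : inw c i x = inw c' j y) : i = j ∧ x = y := by
  obtain ⟨h1, h2, -⟩ := hCOD.1 _ _ _ _ _ _ h
  refine ⟨?_, h1⟩
  have := congrArg List.length h2
  simpa using this

theorem inw_length (hCOD : Pool.Agent.H6.NB.T_COD) (c i : ℕ) (x : List Bool) :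
    (x.length ^ c + c + 1) ^ (i + 2) ≤ (inw c i x).length := by
  unfold inw
  rw [hCOD.2]
  omega

/-! ### Constant gates -/

/-- The constant gate. -/
def cg : (m : ℕ) → Bool → Gt DT m
  | 0, b => .leaf b
  | m + 1, b => gcons m [cg m (!b)]

theorem cg_val (v : DT → Bool) (hv : ∀ b, v (.leaf b) = b) : ∀ (m : ℕ) (b : Bool),
    gval v m (cg m b) = b
  | 0, b => hv b
  | m + 1, b => by
      have h1 : gval v (m + 1) (cg (m + 1) b) = gval v (m + 1) (gcons m [cg m (!b)]) := rfl
      rw [h1, gval_gcons, List.any_cons, List.any_nil, cg_val v hv m (!b)]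
      cases b <;> rfl

theorem cg_gsz (s : ℕ) (hs : 1 ≤ s) : ∀ (m : ℕ) (b : Bool), gsz s m (cg m b)
  | 0, _ => trivial
  | m + 1, b => by
      refine gsz_gcons s m _ (by simpa using hs) ?_
      intro G hG
      rw [List.mem_singleton.1 hG]
      exact cg_gsz s hs m _

theorem cg_gbs : ∀ (m : ℕ) (b : Bool), ∀ T ∈ gbs m (cg m b), ∃ b', T = DT.leaf b'
  | 0, b => by
      intro T hT
      exact ⟨b, List.mem_singleton.1 hT⟩
  | m + 1, b => by
      intro T hT
      obtain ⟨G, hG, hT'⟩ := (mem_gbs_gcons m _ T).1 hT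
      rw [List.mem_singleton.1 hG] at hT'
      exact cg_gbs m _ T hT'

/-! ### Lifting a gate -/

/-- One level more at the bottom. -/
def up1 (m : ℕ) (G : Gt DT m) : Gt DT (m + 1) := gmap (fun T => [dneg T]) m G

theorem up1_val (O : List Bool → Bool) (m : ℕ) (G : Gt DT m) :
    gval (fun T : DT => T.eval O) (m + 1) (up1 m G) = gval (fun T : DT => T.eval O) m G := by
  have h1 : gval (fun T : DT => T.eval O) (m + 1) (up1 m G) =
      gval (fun L : List DT => L.any fun T => !(T.eval O)) m (gmap (fun T => [dneg T]) m G) := rfl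
  rw [h1, gval_gmap]
  congr 1
  funext T
  simp [dneg_eval]

theorem up1_gbs (m : ℕ) (G : Gt DT m) (T : DT) :
    T ∈ gbs (m + 1) (up1 m G) ↔ ∃ T' ∈ gbs m G, T = dneg T' := by
  have h1 : gbs (m + 1) (up1 m G) =
      (gbs (T := List DT) m (gmap (fun T => [dneg T]) m G)).flatten := rfl
  rw [h1, gbs_gmap, List.mem_flatten]
  constructor
  · rintro ⟨l, hl, hT⟩
    obtain ⟨T', hT', rfl⟩ := List.mem_map.1 hl
    exact ⟨T', hT', List.mem_singleton.1 hT⟩
  · rintro ⟨T', hT', rfl⟩
    exact ⟨[dneg T'], List.mem_map.2 ⟨T', hT', rfl⟩, List.mem_singleton.2 rfl⟩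

theorem up1_gsz (s m : ℕ) (hs : 1 ≤ s) (G : Gt DT m) (h : gsz s m G) :
    gsz s (m + 1) (up1 m G) := by
  refine ⟨(gsz_gmap m _ _ _ s G).2 h, ?_⟩
  intro l hl
  have h1 : l ∈ gbs (T := List DT) m (gmap (fun T => [dneg T]) m G) := hl
  rw [gbs_gmap] at h1
  obtain ⟨T', -, rfl⟩ := List.mem_map.1 h1
  simpa using hs

theorem lift (s t m : ℕ) (hs : 1 ≤ s) (G : Gt DT m) (h1 : gsz s m G)
    (h2 : ∀ T ∈ gbs m G, T.depth ≤ t) (h3 : ∀ T ∈ gbs m G, T.Short t) : ∀ d : ℕ,
    ∃ G2 : Gt DT (m + d), (∀ O : List Bool → Bool, gval (fun T : DT => T.eval O) (m + d) G2 =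
      gval (fun T : DT => T.eval O) m G) ∧ gsz s (m + d) G2 ∧
      (∀ T ∈ gbs (m + d) G2, T.depth ≤ t) ∧ ∀ T ∈ gbs (m + d) G2, T.Short t
  | 0 => ⟨G, fun _ => rfl, h1, h2, h3⟩
  | d + 1 => by
      obtain ⟨G2, e1, e2, e3, e4⟩ := lift s t m hs G h1 h2 h3 d
      refine ⟨up1 (m + d) G2, fun O => ?_, up1_gsz s (m + d) hs G2 e2, ?_, ?_⟩
      · exact (up1_val O (m + d) G2).trans (e1 O)
      · intro T hT
        obtain ⟨T', hT', rfl⟩ := (up1_gbs (m + d) G2 T).1 hT
        rw [dneg_depth]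
        exact e3 T' hT'
      · intro T hT
        obtain ⟨T', hT', rfl⟩ := (up1_gbs (m + d) G2 T).1 hT
        exact dneg_short _ _ (e4 T' hT')

theorem lift_le (s t m K : ℕ) (hm : m ≤ K) (hs : 1 ≤ s) (G : Gt DT m) (h1 : gsz s m G)
    (h2 : ∀ T ∈ gbs m G, T.depth ≤ t) (h3 : ∀ T ∈ gbs m G, T.Short t) :
    ∃ G2 : Gt DT K, (∀ O : List Bool → Bool, gval (fun T : DT => T.eval O) K G2 =
      gval (fun T : DT => T.eval O) m G) ∧ gsz s K G2 ∧
      (∀ T ∈ gbs K G2, T.depth ≤ t) ∧ ∀ T ∈ gbs K G2, T.Short t := by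
  obtain ⟨d, rfl⟩ := Nat.exists_eq_add_of_le hm
  exact lift s t m hs G h1 h2 h3 d

theorem base_le (n c i m : ℕ) (hn : 1 ≤ n) (hi : c < i)
    (h : m ^ (i + 2) ≤ n ^ (c + 1) + c + 1) : m ≤ n := by
  by_contra hm
  have h1 : n + 1 ≤ m := by omega
  have h2 : (n + 1) ^ (c + 3) ≤ m ^ (i + 2) :=
    (Nat.pow_le_pow_left h1 _).trans (Nat.pow_le_pow_right (by omega) (by omega))
  have h3 : (n + 1) ^ (c + 3) = (n + 1) ^ (c + 1) * (n + 1) ^ 2 := by
    rw [← pow_add]
  have h4 : 4 ≤ (n + 1) ^ 2 := by nlinarith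
  have h5 : (n + 1) ^ (c + 1) * 4 ≤ (n + 1) ^ (c + 1) * (n + 1) ^ 2 := Nat.mul_le_mul_left _ h4
  have h6 : n ^ (c + 1) ≤ (n + 1) ^ (c + 1) := Nat.pow_le_pow_left (by omega) _
  have h7 : c + 1 < 2 ^ (c + 1) := Nat.lt_two_pow_self
  have h8 : 2 ^ (c + 1) ≤ (n + 1) ^ (c + 1) := Nat.pow_le_pow_left (by omega) _
  omega

theorem pf_GTE (hCOD : Pool.Agent.H6.NB.T_COD) : T_GTE := by
  classical
  intro κ V c K hK1 hK n N hn hN D
  have hins : ∀ (O : List Bool → Bool) (i : ℕ) (x : List Bool),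
      ans V O (inw (V i).c i x) ↔ x ∈ (V i).lang O := by
    intro O i x
    constructor
    · rintro ⟨j, y, h, hy⟩
      obtain ⟨h1, h2⟩ := inw_inj hCOD h
      subst h1
      subst h2
      exact hy
    · intro h
      exact ⟨i, x, rfl, h⟩
  have key : ∀ s : Li n N, ∃ (G : Gt DT K) (t : ℕ), (t + 1) ^ 2 ≤ s.1.length + 1 ∧
      gsz (2 ^ (t + 1)) K G ∧ (∀ T ∈ gbs K G, T.depth ≤ t) ∧ (∀ T ∈ gbs K G, T.Short t) ∧
      ∀ O, (∀ w : List Bool, w.length < n → O w = orc V D w) →
        (ans V O s.1 ↔ gval (fun T => T.eval O) K G = true) := by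
    intro s
    have hconst : ∀ b : Bool, (∀ O, (∀ w : List Bool, w.length < n → O w = orc V D w) →
        (ans V O s.1 ↔ b = true)) → ∃ (G : Gt DT K) (t : ℕ), (t + 1) ^ 2 ≤ s.1.length + 1 ∧
      gsz (2 ^ (t + 1)) K G ∧ (∀ T ∈ gbs K G, T.depth ≤ t) ∧ (∀ T ∈ gbs K G, T.Short t) ∧
      ∀ O, (∀ w : List Bool, w.length < n → O w = orc V D w) →
        (ans V O s.1 ↔ gval (fun T => T.eval O) K G = true) := by
      intro b hb
      refine ⟨cg K b, 0, by omega, cg_gsz _ (by norm_num) K b, ?_, ?_, ?_⟩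
      · intro T hT
        obtain ⟨b', rfl⟩ := cg_gbs K b T hT
        exact le_rfl
      · intro T hT
        obtain ⟨b', rfl⟩ := cg_gbs K b T hT
        trivial
      · intro O hO
        rw [cg_val (fun T : DT => T.eval O) (fun _ => rfl) K b]
        exact hb O hO
    by_cases h : ∃ (i : ℕ) (x : List Bool), s.1 = inw (V i).c i x
    · obtain ⟨i, x, hs⟩ := h
      have hlen := inw_length hCOD (V i).c i x
      rw [← hs] at hlen
      rcases Nat.lt_or_ge c i with hci | hci
      · -- a machine with a large number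
        have hN' : s.1.length ≤ n ^ (c + 1) + c + 1 := by
          rw [← hN]
          exact s.2.2
        have hm := base_le n c i _ hn hci (hlen.trans hN')
        refine hconst (decide (x ∈ (V i).lang (orc V D))) fun O hO => ?_
        rw [hs, hins O i x, decide_eq_true_iff]
        refine Pool.Agent.H46.RK.alt_congr _ (κ i) true _ _ fun ws hws hR => ?_
        rw [eval_short (x.length ^ (V i).c + (V i).c) O (orc V D) (fun w hw => hO w (by omega)) _
          ((V i).short x ws hws hR)]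
      · -- a machine with a small number
        obtain ⟨t, ht⟩ : ∃ t, t = x.length ^ (V i).c + (V i).c := ⟨_, rfl⟩
        obtain ⟨G, e1, e2, e3, e4⟩ := lift_le (2 ^ (t + 1)) t (κ i) K (hK i hci)
          Nat.one_le_two_pow (mk t (κ i) true ((V i).tree x)) (mk_gsz _ _ _ _) (by
            intro T hT
            obtain ⟨ws, h1, h2, h3⟩ := mk_gbs _ _ _ _ T hT
            have h4 := (V i).depth_le x ws h1 (by rw [← ht]; exact h2)
            rw [← ht] at h4
            rcases h3 with rfl | rfl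
            · exact h4
            · rw [dneg_depth]
              exact h4) (by
            intro T hT
            obtain ⟨ws, h1, h2, h3⟩ := mk_gbs _ _ _ _ T hT
            have h4 := (V i).short x ws h1 (by rw [← ht]; exact h2)
            rw [← ht] at h4
            rcases h3 with rfl | rfl
            · exact h4
            · exact dneg_short _ _ h4)
        refine ⟨G, t, ?_, e2, e3, e4, fun O _ => ?_⟩
        · rw [← ht] at hlen
          have h1 : (t + 1) ^ 2 ≤ (t + 1) ^ (i + 2) := Nat.pow_le_pow_right (by omega) (by omega)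
          omega
        · rw [e1, hs, hins O i x, mk_val]
          simp only [if_true]
          rw [ht]
          exact Iff.rfl
    · refine hconst false fun O _ => ?_
      constructor
      · rintro ⟨i, x, hs, -⟩
        exact absurd ⟨i, x, hs⟩ h
      · intro h1
        exact absurd h1 (by simp)
  choose G t h1 h2 h3 h4 h5 using key
  exact ⟨G, t, ⟨h1, h2, h3, h4, h5⟩⟩

end Pool.Agent.H25.RW
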