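import Pool.Agent.H70.RW.T

/-!
# NUM: estimates (MP_0f8dca_lc, board nbw_modules; after Pool.Agent.H47.RK.NUM)
-/

set_option autoImplicit false

namespace Pool.Agent.H25.RW

open Finset Filter Pool.Agent.H70.RW

theorem poly_le (c n : ℕ) (hn : 4 ≤ n) : n ^ (c + 1) + c + 1 ≤ n ^ (c + 2) := by
  have h1 : c + 1 < n ^ (c + 1) := Nat.lt_pow_self (by omega)
  have h2 : n ^ (c + 2) = n ^ (c + 1) * n := pow_succ n (c + 1)
  have h3 : n ^ (c + 1) * 4 ≤ n ^ (c + 1) * n := Nat.mul_le_mul_left _ hn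
  omega

theorem card_len (n N L : ℕ) :
    (univ.filter fun s : Li n N => s.1.length = L).card ≤ 2 ^ L := by
  have h1 : (univ : Finset (Fin L → Bool)).card = 2 ^ L := by simp
  rw [← h1]
  refine Finset.card_le_card_of_injOn (fun s => fun i : Fin L => s.1.getD i false) (fun _ _ => mem_coe.2 (mem_univ _)) ?_
  intro s hs s' hs' h
  rw [Finset.coe_filter] at hs hs'
  have h2 : s.1.length = L := hs.2
  have h3 : s'.1.length = L := hs'.2
  apply Subtype.ext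
  apply List.ext_getElem (by rw [h2, h3])
  intro i hi hi'
  have h4 := congrFun h ⟨i, by omega⟩
  simp only at h4
  rw [List.getD_eq_getElem _ _ hi, List.getD_eq_getElem _ _ hi'] at h4
  exact h4

/-- the sum over the instances -/
theorem sum_inst (n N : ℕ) : ∑ s : Li n N, (1 / 4 : ℝ) ^ s.1.length ≤ 2 * (1 / 2) ^ n := by
  have hmaps : ∀ s ∈ (univ : Finset (Li n N)), s.1.length ∈ Finset.Ico n (N + 1) := by
    intro s _
    rw [Finset.mem_Ico]
    have h1 := s.2.1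
    have h2 := s.2.2
    omega
  rw [← Finset.sum_fiberwise_of_maps_to hmaps]
  have h4 : ∀ L ∈ Finset.Ico n (N + 1), ∑ s ∈ univ.filter (fun s : Li n N => s.1.length = L),
      (1 / 4 : ℝ) ^ s.1.length ≤ (1 / 2) ^ L := by
    intro L _
    have h5 : ∀ s ∈ univ.filter (fun s : Li n N => s.1.length = L),
        (1 / 4 : ℝ) ^ s.1.length = (1 / 4) ^ L := by
      intro s hs
      rw [(Finset.mem_filter.1 hs).2]
    rw [Finset.sum_congr rfl h5, Finset.sum_const, nsmul_eq_mul]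
    have h6 : ((univ.filter fun s : Li n N => s.1.length = L).card : ℝ) ≤ 2 ^ L := by
      exact_mod_cast card_len n N L
    calc ((univ.filter fun s : Li n N => s.1.length = L).card : ℝ) * (1 / 4) ^ L ≤
        2 ^ L * (1 / 4) ^ L := by gcongr
      _ = (1 / 2) ^ L := by rw [← mul_pow]; norm_num
  refine le_trans (Finset.sum_le_sum h4) ?_
  have h7 := geom_sum_Ico_le_of_lt_one (x := (1 / 2 : ℝ)) (m := n) (n := N + 1) (by norm_num)
    (by norm_num)
  refine le_trans h7 ?_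
  have : (1 / 2 : ℝ) ^ n / (1 - 1 / 2) = 2 * (1 / 2) ^ n := by
    rw [show (1 : ℝ) - 1 / 2 = 1 / 2 by norm_num]
    ring
  rw [this]

theorem sq_le (L : ℕ) : L ^ 2 + 2 * L + 3 ≤ 4 * 2 ^ L := by
  induction L with
  | zero => norm_num
  | succ L ih =>
    rw [pow_succ 2 L]
    nlinarith

/-- the sum over the blocks -/
theorem sum_blocks (n N : ℕ) :
    ∑ p : Bi n N, (1 / 8 : ℝ) ^ (p.1.1.length + 20) ≤ (1 / 2) ^ n * (1 / 2) := by
  rw [Fintype.sum_sigma]
  have h1 : ∀ s : Li n N, ∑ _j : Fin s.1.length × Fin (4 * s.1.length),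
      (1 / 8 : ℝ) ^ (s.1.length + 20) ≤ (16 * (1 / 8 : ℝ) ^ 20) * (1 / 4 : ℝ) ^ s.1.length := by
    intro s
    rw [Finset.sum_const, Finset.card_univ, Fintype.card_prod, Fintype.card_fin, Fintype.card_fin,
      nsmul_eq_mul, pow_add]
    have h2 : (s.1.length : ℝ) ^ 2 ≤ 4 * 2 ^ s.1.length := by
      have h0 : s.1.length ^ 2 ≤ 4 * 2 ^ s.1.length := by
        have := sq_le s.1.length
        omega
      exact_mod_cast h0
    have h3 : (2 : ℝ) ^ s.1.length * (1 / 8) ^ s.1.length = (1 / 4) ^ s.1.length := by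
      rw [← mul_pow]
      norm_num
    have h4 : (s.1.length : ℝ) ^ 2 * (1 / 8) ^ s.1.length ≤ 4 * (1 / 4) ^ s.1.length := by
      rw [← h3, ← mul_assoc]
      exact mul_le_mul_of_nonneg_right h2 (by positivity)
    calc ((s.1.length * (4 * s.1.length) : ℕ) : ℝ) *
          ((1 / 8 : ℝ) ^ s.1.length * (1 / 8 : ℝ) ^ 20) =
        (4 * (1 / 8 : ℝ) ^ 20) * ((s.1.length : ℝ) ^ 2 * (1 / 8 : ℝ) ^ s.1.length) := by
          push_cast
          ring
      _ ≤ (4 * (1 / 8 : ℝ) ^ 20) * (4 * (1 / 4 : ℝ) ^ s.1.length) :=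
        mul_le_mul_of_nonneg_left h4 (by positivity)
      _ = _ := by ring
  refine le_trans (Finset.sum_le_sum fun s _ => h1 s) ?_
  rw [← Finset.mul_sum]
  have h2 := sum_inst n N
  calc (16 * (1 / 8 : ℝ) ^ 20) * ∑ s : Li n N, (1 / 4 : ℝ) ^ s.1.length
      ≤ (16 * (1 / 8) ^ 20) * (2 * (1 / 2) ^ n) :=
        mul_le_mul_of_nonneg_left h2 (by positivity)
    _ = (1 / 2) ^ n * (32 * (1 / 8) ^ 20) := by ring
    _ ≤ (1 / 2) ^ n * (1 / 2) := by
        refine mul_le_mul_of_nonneg_left ?_ (by positivity)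
        norm_num

theorem ev_poly (k : ℕ) : ∀ᶠ n : ℕ in atTop, 32 * n ^ k ≤ 2 ^ n := by
  have h1 := tendsto_pow_const_div_const_pow_of_one_lt k (r := (2 : ℝ)) (by norm_num)
  have h2 : ∀ᶠ n : ℕ in atTop, (n : ℝ) ^ k / 2 ^ n < 1 / 32 :=
    h1.eventually (gt_mem_nhds (by norm_num))
  filter_upwards [h2] with n hn
  have h3 : (0 : ℝ) < 2 ^ n := by positivity
  rw [div_lt_iff₀ h3] at hn
  have h4 : (32 : ℝ) * n ^ k ≤ 2 ^ n := by linarith
  exact_mod_cast h4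

theorem pf_NUM : T_NUM := by
  intro k c hk
  filter_upwards [ev_poly ((c + 2) * (k + 2)), eventually_ge_atTop (400 + 4 * k)] with n h1 hn N hN
  have hNn : N ≤ n ^ (c + 2) := by
    rw [hN]
    exact poly_le c n (by omega)
  have hnN : n ≤ N := by
    rw [hN]
    have : n ^ 1 ≤ n ^ (c + 1) := Nat.pow_le_pow_right (by omega) (by omega)
    rw [pow_one] at this
    omega
  have hN2 : 2 ≤ N := by omega
  have hNN : 4 * N ^ (k + 2) ≤ 2 ^ n := by
    have h2 : N ^ (k + 2) ≤ (n ^ (c + 2)) ^ (k + 2) := Nat.pow_le_pow_left hNn _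
    rw [← pow_mul] at h2
    omega
  have h8N : 8 * N ≤ 2 ^ n := by
    refine le_trans ?_ hNN
    have h2 : N ^ 2 ≤ N ^ (k + 2) := Nat.pow_le_pow_right (by omega) (by omega)
    nlinarith
  -- the real quantities
  have hkR : (k : ℝ) * (1 / 2) ^ k ≤ 1 := by
    have h2 : (k : ℝ) ≤ 2 ^ k := by exact_mod_cast Nat.lt_two_pow_self.le
    have h3 : (2 : ℝ) ^ k * (1 / 2) ^ k = 1 := by
      rw [← mul_pow]
      norm_num
    exact (mul_le_mul_of_nonneg_right h2 (by positivity)).trans h3.le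
  have hn1 : (1 / 2 : ℝ) ^ n ≤ (1 / 2) ^ 400 * (1 / 2) ^ k := by
    rw [← pow_add]
    exact pow_le_pow_of_le_one (by norm_num) (by norm_num) (by omega)
  have hkn : (k : ℝ) * (1 / 2) ^ n ≤ (1 / 2) ^ 400 := by
    calc (k : ℝ) * (1 / 2) ^ n ≤ k * ((1 / 2) ^ 400 * (1 / 2) ^ k) :=
          mul_le_mul_of_nonneg_left hn1 (Nat.cast_nonneg k)
      _ = (1 / 2) ^ 400 * (k * (1 / 2) ^ k) := by ring
      _ ≤ (1 / 2) ^ 400 * 1 := mul_le_mul_of_nonneg_left hkR (pow_nonneg (by norm_num) _)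
      _ = _ := mul_one _
  have hn4 : (1 / 2 : ℝ) ^ n ≤ (1 / 2) ^ 400 :=
    pow_le_pow_of_le_one (by norm_num) (by norm_num) (by omega)
  have h9 : (1 / 2 : ℝ) ^ 400 = (1 / 2) ^ 300 * (1 / 2) ^ 100 := by
    rw [← pow_add]
  have hblk : ∑ p : Bi n N, (1 / 8 : ℝ) ^ (p.1.1.length + 20) ≤ (1 / 2) ^ 400 :=
    (sum_blocks n N).trans (by
      have : (1 / 2 : ℝ) ^ n * (1 / 2) ≤ (1 / 2) ^ n := by
        have h0 : 0 ≤ (1 / 2 : ℝ) ^ n := by positivity
        linarith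
      exact this.trans hn4)
  have hins : ∑ s : Li n N, (1 / 4 : ℝ) ^ s.1.length ≤ 2 * (1 / 2) ^ 400 :=
    (sum_inst n N).trans (mul_le_mul_of_nonneg_left hn4 (by norm_num))
  have htail : 2 ^ (N + 1) * (k * (2 ^ N) ^ k * (3 * (4 * N ^ (k + 2) / 2 ^ (4 * n) : ℝ) ^ N)) ≤
      6 * (1 / 2) ^ 400 := by
    have h2 : (4 * N ^ (k + 2) / 2 ^ (4 * n) : ℝ) ≤ (1 / 8) ^ n := by
      have h3 : (4 * N ^ (k + 2) : ℝ) ≤ 2 ^ n := by exact_mod_cast hNN
      rw [div_le_iff₀ (by positivity)]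
      refine h3.trans (le_of_eq ?_)
      rw [pow_mul, ← mul_pow]
      norm_num
    have h3 : (4 * N ^ (k + 2) / 2 ^ (4 * n) : ℝ) ^ N ≤ ((1 / 8) ^ n) ^ N :=
      pow_le_pow_left₀ (by positivity) h2 N
    have h4 : (2 * 2 ^ k * (1 / 8) ^ n : ℝ) ≤ (1 / 4) ^ n := by
      have h5 : (2 * 2 ^ k : ℝ) ≤ 2 ^ n := by
        rw [← pow_succ']
        exact pow_le_pow_right₀ (by norm_num) (by omega)
      calc (2 * 2 ^ k * (1 / 8) ^ n : ℝ) ≤ 2 ^ n * (1 / 8) ^ n :=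
            mul_le_mul_of_nonneg_right h5 (by positivity)
        _ = (1 / 4) ^ n := by rw [← mul_pow]; norm_num
    have h6 : (2 * 2 ^ k * (1 / 8) ^ n : ℝ) ^ N ≤ (1 / 4) ^ n := by
      calc (2 * 2 ^ k * (1 / 8) ^ n : ℝ) ^ N ≤ ((1 / 4) ^ n) ^ N :=
            pow_le_pow_left₀ (by positivity) h4 N
        _ ≤ ((1 / 4) ^ n) ^ 1 := pow_le_pow_of_le_one (by positivity)
            (pow_le_one₀ (by norm_num) (by norm_num)) (by omega)
        _ = _ := pow_one _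
    calc 2 ^ (N + 1) * (k * (2 ^ N) ^ k * (3 * (4 * N ^ (k + 2) / 2 ^ (4 * n) : ℝ) ^ N))
        ≤ 2 ^ (N + 1) * (k * (2 ^ N) ^ k * (3 * ((1 / 8) ^ n) ^ N)) := by gcongr
      _ = 6 * k * (2 * 2 ^ k * (1 / 8) ^ n : ℝ) ^ N := by
          rw [mul_pow, mul_pow, ← pow_mul 2 N k, ← pow_mul 2 k N, mul_comm k N, pow_succ]
          ring
      _ ≤ 6 * k * (1 / 4) ^ n := mul_le_mul_of_nonneg_left h6 (by positivity)
      _ = 6 * ((k * (1 / 2) ^ n) * (1 / 2) ^ n) := by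
          have h7 : (1 / 4 : ℝ) ^ n = (1 / 2) ^ n * (1 / 2) ^ n := by
            rw [← mul_pow]
            norm_num
          rw [h7]
          ring
      _ ≤ 6 * ((1 / 2) ^ 400 * 1) := by
          refine mul_le_mul_of_nonneg_left ?_ (by norm_num)
          exact mul_le_mul hkn (pow_le_one₀ (by norm_num) (by norm_num)) (by positivity)
            (by positivity)
      _ = _ := by rw [mul_one]
  have hfin : 7 * (1 / 2 : ℝ) ^ 400 ≤ (1 / 2) ^ 300 := by
    rw [h9]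
    have h12 : 7 * (1 / 2 : ℝ) ^ 100 ≤ 1 := by norm_num
    calc 7 * ((1 / 2 : ℝ) ^ 300 * (1 / 2) ^ 100) = (1 / 2) ^ 300 * (7 * (1 / 2) ^ 100) := by
          generalize (1 / 2 : ℝ) ^ 300 = x
          ring
      _ ≤ (1 / 2) ^ 300 * 1 := mul_le_mul_of_nonneg_left h12 (by positivity)
      _ = _ := mul_one _
  refine ⟨hN2, by omega, hnN, ?_, ?_, ?_, ?_⟩
  · exact hNN.trans (Nat.pow_le_pow_right (by norm_num) (by omega))
  · calc (8 * N) ^ (k + 1) ≤ (2 ^ n) ^ (k + 1) := Nat.pow_le_pow_left h8N _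
      _ = 2 ^ (n * (k + 1)) := (pow_mul _ _ _).symm
      _ ≤ 2 ^ (n + 20) ^ 2 := by
          refine Nat.pow_le_pow_right (by norm_num) ?_
          nlinarith
  · refine le_trans (add_le_add hblk htail) ?_
    generalize (1 / 2 : ℝ) ^ 400 = x at hfin ⊢
    linarith
  · have h0 : (0 : ℝ) ≤ (1 / 2) ^ 400 := by positivity
    refine le_trans (add_le_add hblk hins) ?_
    generalize (1 / 2 : ℝ) ^ 400 = x at hfin h0 ⊢
    linarith

end Pool.Agent.H25.RW
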